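import Pool.Agent.Helper82.DG.Base

/-!
# Dark islands: names, edges and the local data

As `Helper82/DG/Base.lean`, but of the dark vertices `D c r` only the boundary (`c = 0` or `r = 0`)
is kept.  The islands `u k m`, `l k m` are placed in the rectangle in column `cc M k` and row
`cc M m`; `u k m` is adjacent to `l k m`, to `lo (k - 1) m` (same row) and to `lo k (m - 1)` (same
column).  The columns of odd `k` are to the right of the middle and the columns of even `k` to the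
left of it, and both are nested outwards.
-/

set_option autoImplicit false

namespace Pool.Agent.Helper74.DG2

open Pool.Agent.Helper18.RAC
open Pool.Agent.Helper82.DG (NE SE NW SW)

/-- names of the vertices of a grid -/
inductive GN
  | P (σ : Bool) (j : ℕ)
  | U (σ : Bool) (c : ℕ)
  | C (σ : Bool) (j : ℕ) (ε : Bool)
  | Q (ε : Bool)
  | D (c r : ℕ)
  | u (k m : ℕ)
  | l (k m : ℕ)
  deriving DecidableEq

/-- the column (or row) of the islands number `k` -/
def cc (M k : ℕ) : ℕ :=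
  if k = 0 then 0 else if k % 2 = 0 then (M - 1) / 2 - k / 2 else (M + 1) / 2 + k / 2

/-- the names which are used in a grid of order `M` -/
def GN.ok (M : ℕ) : GN → Prop
  | .P _ j => j < 2 * M
  | .U _ c => c < M
  | .C _ j _ => j + 1 < 2 * M
  | .Q _ => True
  | .D c r => c < M ∧ r < M ∧ (c = 0 ∨ r = 0)
  | .u k m => 1 ≤ k ∧ 1 ≤ m ∧ k + m + 2 ≤ M
  | .l k m => 1 ≤ k ∧ 1 ≤ m ∧ k + m + 3 ≤ M

/-- the boundary vertices with the two indices exchanged if `σ = true` -/
def GN.D' (σ : Bool) (c r : ℕ) : GN := cond σ (.D r c) (.D c r)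

/-- the upper vertices with the two indices exchanged if `σ = true` -/
def GN.u' (σ : Bool) (k m : ℕ) : GN := cond σ (.u m k) (.u k m)

/-- the lower vertices, where the islands with `k = 0` or `m = 0` are boundary vertices -/
def GN.lo (M k m : ℕ) : GN :=
  if m = 0 then .D (cc M k) 0 else if k = 0 then .D 0 (cc M m) else .l k m

/-- the same with the two indices exchanged if `σ = true` -/
def GN.lo' (M : ℕ) (σ : Bool) (k m : ℕ) : GN := cond σ (.lo M m k) (.lo M k m)

/-- corners and names -/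
inductive GX
  | X (σ : Bool)
  | Y (σ : Bool)
  | v (x : GN)
  deriving DecidableEq

/-- codes of the edges of a grid -/
inductive GE
  | yp (σ : Bool) (j : ℕ)
  | xu (σ : Bool) (c : ℕ)
  | xp (σ : Bool)
  | up (σ : Bool) (c : ℕ)
  | pd (σ : Bool) (c : ℕ)
  | dd (σ : Bool) (c : ℕ)
  | pp (σ : Bool) (j : ℕ)
  | pc (σ : Bool) (j : ℕ) (ε : Bool)
  | pc' (σ : Bool) (j : ℕ) (ε : Bool)
  | cc (σ : Bool) (j : ℕ)
  | uu
  | uq (σ : Bool) (ε : Bool)
  | qq
  | dr (σ : Bool) (ε : Bool)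
  | ul (k m : ℕ)
  | lk (σ : Bool) (k m : ℕ)
  deriving DecidableEq

/-- valid codes -/
def GE.valid (M : ℕ) : GE → Prop
  | .yp _ j => j < 2 * M
  | .xu _ c => c < M
  | .xp _ => True
  | .up _ c => c < M
  | .pd _ c => c < M
  | .dd _ c => c + 1 < M
  | .pp _ j => j + 1 < 2 * M
  | .pc _ j _ => j + 1 < 2 * M
  | .pc' _ j _ => j + 1 < 2 * M
  | .cc _ j => j + 1 < 2 * M
  | .uu => True
  | .uq _ _ => True
  | .qq => True
  | .dr _ _ => True
  | .ul k m => 1 ≤ k ∧ 1 ≤ m ∧ k + m + 3 ≤ M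
  | .lk _ k m => 1 ≤ k ∧ k + m + 3 ≤ M

/-- the ends of the edges; `lk σ k m` is the link between `lo k m` and `u k (m + 1)` (in one
column) if `σ = false` and between `lo m k` and `u (m + 1) k` (in one row) if `σ = true` -/
def GE.ends (M : ℕ) : GE → GX × GX
  | .yp σ j => (.Y σ, .v (.P σ j))
  | .xu σ c => (.X σ, .v (.U σ c))
  | .xp σ => (.X (!σ), .v (.P σ (2 * M - 1)))
  | .up σ c => (.v (.U σ c), .v (.P σ (2 * c)))
  | .pd σ c => (.v (.P σ (2 * c + 1)), .v (.D' σ c 0))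
  | .dd σ c => (.v (.D' σ c 0), .v (.D' σ (c + 1) 0))
  | .pp σ j => (.v (.P σ j), .v (.P σ (j + 1)))
  | .pc σ j ε => (.v (.P σ j), .v (.C σ j ε))
  | .pc' σ j ε => (.v (.P σ (j + 1)), .v (.C σ j ε))
  | .cc σ j => (.v (.C σ j false), .v (.C σ j true))
  | .uu => (.v (.U false (M - 1)), .v (.U true (M - 1)))
  | .uq σ ε => (.v (.U σ (M - 1)), .v (.Q ε))
  | .qq => (.v (.Q false), .v (.Q true))
  | .dr σ ε => (.v (.D' σ (M - 1) 0), .v (.U (!σ) (cond ε 1 0)))
  | .ul k m => (.v (.u k m), .v (.l k m))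
  | .lk σ k m => (.v (.lo' M σ k m), .v (.u' σ k (m + 1)))

variable {V : Type*}

/-- the edges of the grid whose corners and vertices are given by `κ` -/
def gridE (κ : GX → V) (M : ℕ) : Set (Sym2 V) :=
  {e | ∃ c : GE, c.valid M ∧ e = s(κ (c.ends M).1, κ (c.ends M).2)}

/-- the graph `G` contains the grid `κ` -/
structure HasGrid (G : SimpleGraph V) (κ : GX → V) (M : ℕ) : Prop where
  hM : 5 ≤ M
  adj : ∀ c : GE, c.valid M → G.Adj (κ (c.ends M).1) (κ (c.ends M).2)
  inj : ∀ x y : GN, x.ok M → y.ok M → κ (.v x) = κ (.v y) → x = y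
  nX : ∀ (x : GN) (σ : Bool), x.ok M → κ (.v x) ≠ κ (.X σ)
  nY : ∀ (x : GN) (σ : Bool), x.ok M → κ (.v x) ≠ κ (.Y σ)

/-- exchange of the two axes -/
def GN.swap : GN → GN
  | .P σ j => .P (!σ) j
  | .U σ c => .U (!σ) c
  | .C σ j ε => .C (!σ) j ε
  | .Q ε => .Q ε
  | .D c r => .D r c
  | .u k m => .u m k
  | .l k m => .l m k

/-- exchange of the two axes -/
def GX.swap : GX → GX
  | .X σ => .X (!σ)
  | .Y σ => .Y (!σ)
  | .v x => .v x.swap

/-- exchange of the two axes -/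
def GE.swap : GE → GE
  | .yp σ j => .yp (!σ) j
  | .xu σ c => .xu (!σ) c
  | .xp σ => .xp (!σ)
  | .up σ c => .up (!σ) c
  | .pd σ c => .pd (!σ) c
  | .dd σ c => .dd (!σ) c
  | .pp σ j => .pp (!σ) j
  | .pc σ j ε => .pc (!σ) j ε
  | .pc' σ j ε => .pc' (!σ) j ε
  | .cc σ j => .cc (!σ) j
  | .uu => .uu
  | .uq σ ε => .uq (!σ) ε
  | .qq => .qq
  | .dr σ ε => .dr (!σ) ε
  | .ul k m => .ul m k
  | .lk σ k m => .lk (!σ) k m

theorem GN.swap_swap (x : GN) : x.swap.swap = x := by cases x <;> simp [GN.swap]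

theorem GX.swap_swap (x : GX) : x.swap.swap = x := by
  cases x <;> simp [GX.swap, GN.swap_swap]

theorem GE.swap_swap (x : GE) : x.swap.swap = x := by cases x <;> simp [GE.swap]

theorem GN.ok_swap {M : ℕ} {x : GN} : x.swap.ok M ↔ x.ok M := by
  cases x <;> simp only [GN.swap, GN.ok] <;> omega

theorem GE.valid_swap {M : ℕ} {x : GE} : x.swap.valid M ↔ x.valid M := by
  cases x <;> simp only [GE.swap, GE.valid]
  omega

theorem GN.swap_D' (σ : Bool) (c r : ℕ) : (GN.D' σ c r).swap = GN.D' (!σ) c r := by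
  cases σ <;> rfl

theorem GN.swap_u' (σ : Bool) (k m : ℕ) : (GN.u' σ k m).swap = GN.u' (!σ) k m := by
  cases σ <;> rfl

theorem GN.swap_lo (M k m : ℕ) (h : 1 ≤ k ∨ 1 ≤ m) : (GN.lo M k m).swap = GN.lo M m k := by
  unfold GN.lo
  by_cases hm : m = 0
  · subst hm
    have hk : k ≠ 0 := by omega
    simp [hk, GN.swap]
  · by_cases hk : k = 0
    · subst hk
      simp [hm, GN.swap]
    · simp [hm, hk, GN.swap]

theorem GN.swap_lo' (M : ℕ) (σ : Bool) (k m : ℕ) (h : 1 ≤ k ∨ 1 ≤ m) :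
    (GN.lo' M σ k m).swap = GN.lo' M (!σ) k m := by
  cases σ
  · exact GN.swap_lo M k m h
  · exact GN.swap_lo M m k h.symm

/-- the ends of the exchanged code, up to the order of the ends -/
theorem GE.ends_swap (M : ℕ) (c : GE) (hc : c.valid M) :
    s((c.swap.ends M).1, (c.swap.ends M).2) = s((c.ends M).1.swap, (c.ends M).2.swap) := by
  cases c with
  | pd σ c => cases σ <;> rfl
  | dd σ c => cases σ <;> rfl
  | dr σ ε => cases σ <;> rfl
  | uu => exact Sym2.eq_swap
  | lk σ k m =>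
    have h1 : 1 ≤ k := hc.1
    simp only [GE.swap, GE.ends, GX.swap]
    rw [GN.swap_lo' M σ k m (Or.inl h1), GN.swap_u']
  | _ => rfl

theorem HasGrid.swap {G : SimpleGraph V} {κ : GX → V} {M : ℕ} (h : HasGrid G κ M) :
    HasGrid G (fun x => κ x.swap) M where
  hM := h.hM
  adj := by
    intro c hc
    have h1 := h.adj c.swap (GE.valid_swap.2 hc)
    have h2 : s(κ (c.swap.ends M).1, κ (c.swap.ends M).2) =
        s(κ (c.ends M).1.swap, κ (c.ends M).2.swap) := by
      have := congrArg (Sym2.map κ) (GE.ends_swap M c hc)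
      simpa using this
    rw [← SimpleGraph.mem_edgeSet] at h1 ⊢
    rwa [h2] at h1
  inj := by
    intro x y hx hy hxy
    have := h.inj x.swap y.swap (GN.ok_swap.2 hx) (GN.ok_swap.2 hy) hxy
    rw [← GN.swap_swap x, this, GN.swap_swap]
  nX := fun x σ hx => h.nX x.swap (!σ) (GN.ok_swap.2 hx)
  nY := fun x σ hx => h.nY x.swap (!σ) (GN.ok_swap.2 hx)

theorem HasGrid.mono {G H : SimpleGraph V} {κ : GX → V} {M : ℕ} (h : HasGrid G κ M)
    (hle : G ≤ H) : HasGrid H κ M :=
  ⟨h.hM, fun c hc => hle (h.adj c hc), h.inj, h.nX, h.nY⟩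

/-- the drawing of a grid near a kite in adapted coordinates: the frame of the grid lies in the
cells of the kite -/
structure GDraw (H : SimpleGraph V) (X Y : V → ℝ) (E F a b : ℝ) (κ : GX → V) (M : ℕ) : Prop where
  hd : ADraw H X Y E F
  hk : KN H X Y a b (κ (.X true)) (κ (.Y true)) (κ (.X false)) (κ (.Y false))
  hs : H.Adj (κ (.Y true)) (κ (.Y false))
  hg : HasGrid H κ M
  hU : ∀ σ c, c < M → NE X Y (κ (.v (.U σ c)))
  hP0 : ∀ j, j < 2 * M → SE X Y b (κ (.v (.P false j)))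
  hC0 : ∀ j ε, j + 1 < 2 * M → SE X Y b (κ (.v (.C false j ε)))
  hP1 : ∀ j, j < 2 * M → NW X Y a (κ (.v (.P true j)))
  hC1 : ∀ j ε, j + 1 < 2 * M → NW X Y a (κ (.v (.C true j ε)))

theorem GDraw.swap {H : SimpleGraph V} {X Y : V → ℝ} {E F a b : ℝ} {κ : GX → V} {M : ℕ}
    (h : GDraw H X Y E F a b κ M) : GDraw H Y X F E b a (fun x => κ x.swap) M where
  hd := h.hd.swap
  hk := h.hk.swap
  hs := h.hs.symm
  hg := h.hg.swap
  hU := fun σ c hc => by
    obtain ⟨h1, h2, h3⟩ := h.hU (!σ) c hc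
    rw [add_comm] at h3
    exact ⟨h2, h1, h3⟩
  hP0 := fun j hj => by
    obtain ⟨h1, h2, h3⟩ := h.hP1 j hj
    exact ⟨h1, h2, h3⟩
  hC0 := fun j ε hj => by
    obtain ⟨h1, h2, h3⟩ := h.hC1 j ε hj
    exact ⟨h1, h2, h3⟩
  hP1 := fun j hj => by
    obtain ⟨h1, h2, h3⟩ := h.hP0 j hj
    exact ⟨h1, h2, h3⟩
  hC1 := fun j ε hj => by
    obtain ⟨h1, h2, h3⟩ := h.hC0 j ε hj
    exact ⟨h1, h2, h3⟩

/-! ### columns -/

theorem cc_zero (M : ℕ) : cc M 0 = 0 := rfl

/-- columns of odd number are to the right of the middle column `(M - 1) / 2` -/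
theorem cc_odd {M k : ℕ} (h : k % 2 = 1) : cc M k = (M + 1) / 2 + k / 2 := by
  unfold cc
  rw [if_neg (by omega), if_neg (by omega)]

/-- columns of even number are to the left of the middle column `(M - 1) / 2` -/
theorem cc_even {M k : ℕ} (h0 : 1 ≤ k) (h : k % 2 = 0) : cc M k = (M - 1) / 2 - k / 2 := by
  unfold cc
  rw [if_neg (by omega), if_pos h]

theorem cc_pos {M k : ℕ} (h0 : 1 ≤ k) (hk : k + 3 ≤ M) : 1 ≤ cc M k := by
  rcases Nat.mod_two_eq_zero_or_one k with h | h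
  · rw [cc_even h0 h]
    omega
  · rw [cc_odd h]
    omega

theorem cc_lt {M k : ℕ} (hk : k + 3 ≤ M) : cc M k + 1 < M := by
  rcases Nat.eq_zero_or_pos k with rfl | h0
  · rw [cc_zero]
    omega
  · rcases Nat.mod_two_eq_zero_or_one k with h | h
    · rw [cc_even h0 h]
      omega
    · rw [cc_odd h]
      omega

theorem cc_inj {M k k' : ℕ} (hk : k + 3 ≤ M) (hk' : k' + 3 ≤ M) (h : cc M k = cc M k') :
    k = k' := by
  rcases Nat.eq_zero_or_pos k with rfl | h0
  · rcases Nat.eq_zero_or_pos k' with rfl | h0'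
    · rfl
    · have := cc_pos h0' hk'
      rw [cc_zero] at h
      omega
  · rcases Nat.eq_zero_or_pos k' with rfl | h0'
    · have := cc_pos h0 hk
      rw [cc_zero] at h
      omega
    · rcases Nat.mod_two_eq_zero_or_one k with e | e <;>
        rcases Nat.mod_two_eq_zero_or_one k' with e' | e'
      · rw [cc_even h0 e, cc_even h0' e'] at h
        omega
      · rw [cc_even h0 e, cc_odd e'] at h
        omega
      · rw [cc_odd e, cc_even h0' e'] at h
        omega
      · rw [cc_odd e, cc_odd e'] at h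
        omega

/-- the names of the ends of a valid code are used -/
theorem GN.lo_ok {M k m : ℕ} (h : 1 ≤ k ∨ 1 ≤ m) (hkm : k + m + 3 ≤ M) : (GN.lo M k m).ok M := by
  unfold GN.lo
  by_cases hm : m = 0
  · rw [if_pos hm]
    have := cc_lt (M := M) (k := k) (by omega)
    exact ⟨by omega, by omega, Or.inr rfl⟩
  · rw [if_neg hm]
    by_cases hk : k = 0
    · rw [if_pos hk]
      have := cc_lt (M := M) (k := m) (by omega)
      exact ⟨by omega, by omega, Or.inl rfl⟩
    · rw [if_neg hk]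
      exact ⟨by omega, by omega, hkm⟩

end Pool.Agent.Helper74.DG2
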