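import Pool.Agent.Helper74.DG2.Part3

/-!
# Dark islands: chains, rectangles and sides

`VC H X Y b N S T B`: the broken line `N T B S` of edges from the top corner `N` to the bottom
corner `S` of the kite; `T B` is vertical.  With the coordinates exchanged this is also used for
the horizontal lines: `VC H Y X a (right corner) (left corner) R L`.
-/

set_option autoImplicit false

namespace Pool.Agent.Helper74.DG2

open Pool.Agent.Helper18.RAC

variable {V : Type*}

/-- a broken line from the top corner `N` to the bottom corner `S` -/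
structure VC (H : SimpleGraph V) (X Y : V → ℝ) (b : ℝ) (N S T B : V) : Prop where
  XN : X N = 0
  YN : Y N = 1
  XS : X S = 0
  YS : Y S = -b
  NT : H.Adj N T
  TB : H.Adj T B
  BS : H.Adj B S
  XT : 0 < X T
  YT : 0 < Y T
  YT1 : Y T < 1
  XB : X B = X T
  YB : Y B < 0
  YBb : -b < Y B

/-- `v` is on the left side of the broken line `N T B S` -/
def Lf (X Y : V → ℝ) (b : ℝ) (T B v : V) : Prop :=
  X v < X T ∧ X v * (1 - Y T) < X T * (1 - Y v) ∧ X v * (b + Y B) < X T * (b + Y v)

/-- the open kite -/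
def InK (X Y : V → ℝ) (a b : ℝ) (v : V) : Prop :=
  X v + Y v < 1 ∧ b * X v - Y v < b ∧ a * Y v - X v < a ∧ -(b * X v) - a * Y v < a * b

/-- the point `(x, y)` lies in the open rectangle number `(c, r)` -/
def InR (X Y : V → ℝ) (κ : GX → V) (c r : ℕ) (x y : ℝ) : Prop :=
  X (κ (.v (.P false (2 * c)))) < x ∧ x < X (κ (.v (.P false (2 * c + 2)))) ∧
    Y (κ (.v (.P true (2 * r)))) < y ∧ y < Y (κ (.v (.P true (2 * r + 2))))

/-- `v` is to the left of the vertical line number `c` -/
def LfC (X Y : V → ℝ) (b : ℝ) (κ : GX → V) (c : ℕ) (v : V) : Prop :=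
  Lf X Y b (κ (.v (.U false c))) (κ (.v (.P false (2 * c)))) v

/-- `v` is below the horizontal line number `r` -/
def LfR (X Y : V → ℝ) (a : ℝ) (κ : GX → V) (r : ℕ) (v : V) : Prop :=
  Lf Y X a (κ (.v (.U true r))) (κ (.v (.P true (2 * r)))) v

/-- a vertex in the open kite which is not an end of a line -/
def Fre (X Y : V → ℝ) (a b : ℝ) (κ : GX → V) (M : ℕ) (v : V) : Prop :=
  InK X Y a b v ∧ (∀ σ j, j < M → v ≠ κ (.v (.U σ j))) ∧ ∀ σ j, j < 2 * M → v ≠ κ (.v (.P σ j))

/-- `v` is on the side of the column number `k` of the islands: to the right of the middle for odd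
`k` and to the left of it for even `k` -/
def SdC (X Y : V → ℝ) (b : ℝ) (κ : GX → V) (M k : ℕ) (v : V) : Prop :=
  (LfC X Y b κ ((M - 1) / 2) v ↔ k % 2 = 0) ∧ (LfC X Y b κ ((M - 1) / 2 + 1) v ↔ k % 2 = 0)

/-- the same for rows -/
def SdR (X Y : V → ℝ) (a : ℝ) (κ : GX → V) (M m : ℕ) (v : V) : Prop :=
  (LfR X Y a κ ((M - 1) / 2) v ↔ m % 2 = 0) ∧ (LfR X Y a κ ((M - 1) / 2 + 1) v ↔ m % 2 = 0)

end Pool.Agent.Helper74.DG2
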