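import Pool.Agent.Helper18.DG2.Lines2

/-!
# Dark islands: rigidity
-/

set_option autoImplicit false

namespace Pool.Agent.Helper74.DG2

open Pool.Agent.Helper18.RAC
open Pool.Agent.Helper82.DG (NE SE NW SW Rect axis_x axis_y pt_eq_D horz_end vert_end)

variable {V : Type*} {H : SimpleGraph V} {X Y : V → ℝ} {E F a b : ℝ} {κ : GX → V} {M : ℕ}
  {c r i j k m : ℕ} {v p p' q l l' : V}

theorem lf_lt {T B : V} (hT : Y T < 1) (hB : -b < Y B) (h1 : Lf X Y b T B q)
    (h2 : ¬ Lf X Y b T B l) (hY : Y q = Y l) : X q < X l := by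
  obtain ⟨a1, a2, a3⟩ := h1
  by_contra hcon
  rw [not_lt] at hcon
  apply h2
  refine ⟨by linarith, ?_, ?_⟩
  · rw [← hY]
    have := mul_le_mul_of_nonneg_right hcon (show 0 ≤ 1 - Y T by linarith)
    linarith
  · rw [← hY]
    have := mul_le_mul_of_nonneg_right hcon (show 0 ≤ b + Y B by linarith)
    linarith

theorem cc_side (hM : 5 ≤ M) :
    (cc M k < (M - 1) / 2 ↔ k % 2 = 0) ∧ (cc M k < (M - 1) / 2 + 1 ↔ k % 2 = 0) := by
  rcases Nat.eq_zero_or_pos k with rfl | h0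
  · rw [cc_zero]
    omega
  · rcases Nat.mod_two_eq_zero_or_one k with e | e
    · rw [cc_even h0 e]
      omega
    · rw [cc_odd e]
      omega

namespace GDraw

theorem C_lt (h : GDraw H X Y E F a b κ M) (hc : c < M) (h1 : LfC X Y b κ c q)
    (h2 : ¬ LfC X Y b κ c l) (hY : Y q = Y l) : X q < X l :=
  lf_lt (h.vc hc).YT1 (h.vc hc).YBb h1 h2 hY

theorem R_lt (h : GDraw H X Y E F a b κ M) (hc : c < M) (h1 : LfR X Y a κ c q)
    (h2 : ¬ LfR X Y a κ c l) (hX : X q = X l) : Y q < Y l :=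
  lf_lt (h.hc hc).YT1 (h.hc hc).YBb h1 h2 hX

/-- a common neighbour `q` of `l`, `l'` in opposite quadrants -/
theorem corner (h : GDraw H X Y E F a b κ M) {i j i' j' : ℕ} (fl : Fre X Y a b κ M l)
    (fl' : Fre X Y a b κ M l') (fq : Fre X Y a b κ M q) (hq : H.Adj q l) (hq' : H.Adj q l')
    (h1 : SdC X Y b κ M i l) (h2 : SdR X Y a κ M j l) (h3 : SdC X Y b κ M i' l')
    (h4 : SdR X Y a κ M j' l') (hi : i % 2 ≠ i' % 2) (hj : j % 2 ≠ j' % 2) :
    (Y q = Y l ∧ X q = X l' ∧ SdC X Y b κ M i' q ∧ SdR X Y a κ M j q) ∨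
      (X q = X l ∧ Y q = Y l' ∧ SdC X Y b κ M i q ∧ SdR X Y a κ M j' q) := by
  have hM := h.hg.hM
  have ni : ¬ (i % 2 = 0 ↔ i' % 2 = 0) := by omega
  have ni' : ¬ (i' % 2 = 0 ↔ i % 2 = 0) := by omega
  have nj : ¬ (j % 2 = 0 ↔ j' % 2 = 0) := by omega
  have nj' : ¬ (j' % 2 = 0 ↔ j % 2 = 0) := by omega
  have m1 : (M - 1) / 2 < M := by omega
  have m2 : (M - 1) / 2 + 1 < M := by omega
  have m3 : (M - 1) / 2 ≠ (M - 1) / 2 + 1 := by omega
  obtain ⟨c1, c2⟩ := h1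
  obtain ⟨d1, d2⟩ := h2
  obtain ⟨c1', c2'⟩ := h3
  obtain ⟨d1', d2'⟩ := h4
  have a1 := fun (c : ℕ) (hc : c < M) (r : ℕ) (hr : r < M) => h.mix hc hr hq fq fl
  have a2 := fun (c : ℕ) (hc : c < M) (r : ℕ) (hr : r < M) => h.mix hc hr hq' fq fl'
  have b1 := h.two_C m1 m2 m3 hq fq fl
  have b2 := h.two_C m1 m2 m3 hq' fq fl'
  have e1 := h.two_R m1 m2 m3 hq fq fl
  have e2 := h.two_R m1 m2 m3 hq' fq fl'
  by_cases hA : LfC X Y b κ ((M - 1) / 2) q ↔ LfC X Y b κ ((M - 1) / 2) l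
  · right
    have k1 : ¬ (LfC X Y b κ ((M - 1) / 2) q ↔ LfC X Y b κ ((M - 1) / 2) l') := by
      rw [hA, c1, c1']
      exact ni
    have r1 := a2 _ m1 _ m1 k1
    have r2 := a2 _ m1 _ m2 k1
    have k2 : ¬ (LfR X Y a κ ((M - 1) / 2) q ↔ LfR X Y a κ ((M - 1) / 2) l) := by
      rw [r1, d1, d1']
      exact nj'
    have k3 : ¬ (LfR X Y a κ ((M - 1) / 2 + 1) q ↔ LfR X Y a κ ((M - 1) / 2 + 1) l) := by
      rw [r2, d2, d2']
      exact nj'
    have hX := e1 k2 k3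
    have k4 : LfC X Y b κ ((M - 1) / 2 + 1) q ↔ LfC X Y b κ ((M - 1) / 2 + 1) l := by
      by_contra hcon
      exact k2 (a1 _ m2 _ m1 hcon)
    have k5 : ¬ (LfC X Y b κ ((M - 1) / 2 + 1) q ↔ LfC X Y b κ ((M - 1) / 2 + 1) l') := by
      rw [k4, c2, c2']
      exact ni
    have hY := b2 k1 k5
    exact ⟨hX.symm, hY.symm, ⟨by rw [hA, c1], by rw [k4, c2]⟩, ⟨by rw [r1, d1'], by rw [r2, d2']⟩⟩
  · left
    have r1 := a1 _ m1 _ m1 hA
    have r2 := a1 _ m1 _ m2 hA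
    have k2 : ¬ (LfR X Y a κ ((M - 1) / 2) q ↔ LfR X Y a κ ((M - 1) / 2) l') := by
      rw [r1, d1, d1']
      exact nj
    have k3 : ¬ (LfR X Y a κ ((M - 1) / 2 + 1) q ↔ LfR X Y a κ ((M - 1) / 2 + 1) l') := by
      rw [r2, d2, d2']
      exact nj
    have hX := e2 k2 k3
    have k4 : LfC X Y b κ ((M - 1) / 2) q ↔ LfC X Y b κ ((M - 1) / 2) l' := by
      by_contra hcon
      exact k2 (a2 _ m1 _ m1 hcon)
    have k5 : LfC X Y b κ ((M - 1) / 2 + 1) q ↔ LfC X Y b κ ((M - 1) / 2 + 1) l' := by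
      by_contra hcon
      exact k2 (a2 _ m2 _ m1 hcon)
    have k6 : ¬ (LfC X Y b κ ((M - 1) / 2 + 1) q ↔ LfC X Y b κ ((M - 1) / 2 + 1) l) := by
      rw [k5, c2, c2']
      exact ni'
    have hY := b1 hA k6
    exact ⟨hY.symm, hX.symm, ⟨by rw [k4, c1'], by rw [k5, c2']⟩, ⟨by rw [r1, d1], by rw [r2, d2]⟩⟩

/-- vertices of the islands and of the boundary are not ends of lines -/
theorem fre_of (h : GDraw H X Y E F a b κ M) {x : GN} (hx : x.ok M)
    (h1 : ∀ σ j, x ≠ .U σ j) (h2 : ∀ σ j, x ≠ .P σ j) (hk : InK X Y a b (κ (.v x))) :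
    Fre X Y a b κ M (κ (.v x)) := by
  refine ⟨hk, ?_, ?_⟩
  · intro σ j hj he
    exact h1 σ j (h.hg.inj _ _ hx hj he)
  · intro σ j hj he
    exact h2 σ j (h.hg.inj _ _ hx hj he)

theorem lo_neU (M k m : ℕ) (σ : Bool) (j : ℕ) : GN.lo M k m ≠ .U σ j := by
  unfold GN.lo
  split_ifs <;> simp

theorem lo_neP (M k m : ℕ) (σ : Bool) (j : ℕ) : GN.lo M k m ≠ .P σ j := by
  unfold GN.lo
  split_ifs <;> simp

theorem lo_neu (M k m k' m' : ℕ) : GN.lo M k m ≠ .u k' m' := by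
  unfold GN.lo
  split_ifs <;> simp

theorem l_ne_lo {M k m k' m' : ℕ} (h : k ≠ k' ∨ m ≠ m') : GN.l k m ≠ GN.lo M k' m' := by
  unfold GN.lo
  split_ifs
  · simp
  · simp
  · intro he
    injection he with e1 e2
    omega

/-! ### adjacencies -/

/-- in one column -/
theorem adj_c (h : GDraw H X Y E F a b κ M) (hk : 1 ≤ k) (hkm : k + m + 3 ≤ M) :
    H.Adj (κ (.v (.u k (m + 1)))) (κ (.v (.lo M k m))) :=
  (h.hg.adj (.lk false k m) ⟨hk, hkm⟩).symm

/-- in one row -/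
theorem adj_r (h : GDraw H X Y E F a b κ M) (hm : 1 ≤ m) (hkm : k + m + 3 ≤ M) :
    H.Adj (κ (.v (.u (k + 1) m))) (κ (.v (.lo M k m))) :=
  (h.hg.adj (.lk true m k) ⟨hm, by omega⟩).symm

theorem lo_eq (hk : 1 ≤ k) (hm : 1 ≤ m) : GN.lo M k m = .l k m := by
  unfold GN.lo
  rw [if_neg (by omega), if_neg (by omega)]

theorem adj_ul (h : GDraw H X Y E F a b κ M) (hk : 1 ≤ k) (hm : 1 ≤ m) (hkm : k + m + 3 ≤ M) :
    H.Adj (κ (.v (.u k m))) (κ (.v (.lo M k m))) := by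
  rw [lo_eq hk hm]
  exact h.hg.adj (.ul k m) ⟨hk, hm, hkm⟩

/-- the placement of the lower vertices of the level `s` -/
def PlL (X Y : V → ℝ) (κ : GX → V) (M s : ℕ) : Prop :=
  ∀ k m, (1 ≤ k ∨ 1 ≤ m) → k + m = s →
    InR X Y κ (cc M k) (cc M m) (X (κ (.v (.lo M k m)))) (Y (κ (.v (.lo M k m))))

/-- what is known about a vertex in the place of `lo k m` -/
structure Wk (X Y : V → ℝ) (a b : ℝ) (κ : GX → V) (M k m : ℕ) (v : V) : Prop where
  fre : Fre X Y a b κ M v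
  cell : NE X Y v ∨ SE X Y b v ∨ NW X Y a v
  sc : SdC X Y b κ M k v
  sr : SdR X Y a κ M m v

theorem ne_of_inR (h : GDraw H X Y E F a b κ M) (hk : k + 3 ≤ M) (hm : m + 3 ≤ M)
    (hv : InR X Y κ (cc M k) (cc M m) (X v) (Y v)) : NE X Y v :=
  h.inR_NE (cc_lt hk) (cc_lt hm) hv

theorem sd_of_inR (h : GDraw H X Y E F a b κ M) (hk : k + 3 ≤ M) (hm : m + 3 ≤ M)
    (hv : InR X Y κ (cc M k) (cc M m) (X v) (Y v)) :
    SdC X Y b κ M k v ∧ SdR X Y a κ M m v := by
  have hM := h.hg.hM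
  have m1 : (M - 1) / 2 < M := by omega
  have m2 : (M - 1) / 2 + 1 < M := by omega
  refine ⟨⟨?_, ?_⟩, ⟨?_, ?_⟩⟩
  · rw [h.lfC_of_inR (cc_lt hk) (cc_lt hm) hv m1]
    exact (cc_side hM).1
  · rw [h.lfC_of_inR (cc_lt hk) (cc_lt hm) hv m2]
    exact (cc_side hM).2
  · rw [h.lfR_of_inR (cc_lt hk) (cc_lt hm) hv m1]
    exact (cc_side hM).1
  · rw [h.lfR_of_inR (cc_lt hk) (cc_lt hm) hv m2]
    exact (cc_side hM).2

theorem wk_lo (h : GDraw H X Y E F a b κ M) (hkm : 1 ≤ k ∨ 1 ≤ m) (hkm' : k + m + 3 ≤ M)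
    (hv : InR X Y κ (cc M k) (cc M m) (X (κ (.v (.lo M k m)))) (Y (κ (.v (.lo M k m))))) :
    Wk X Y a b κ M k m (κ (.v (.lo M k m))) := by
  have hNE := h.ne_of_inR (k := k) (m := m) (by omega) (by omega) hv
  obtain ⟨h1, h2⟩ := h.sd_of_inR (k := k) (m := m) (by omega) (by omega) hv
  exact ⟨h.fre_of (GN.lo_ok hkm hkm') (fun σ j => lo_neU M k m σ j)
    (fun σ j => lo_neP M k m σ j) (h.inK_NE hNE), Or.inl hNE, h1, h2⟩

/-- the vertices of `SE` are below all horizontal lines -/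
theorem lfR_SE (h : GDraw H X Y E F a b κ M) (hr : r < M) (hv : SE X Y b v) :
    LfR X Y a κ r v := by
  obtain ⟨h1, h2, h3⟩ := hv
  have hh := h.hc hr
  have ha := h.hk.a_pos
  have hb := h.hk.b_pos
  have e1 := hh.XT
  have e2 := hh.YT1
  have e3 := hh.YBb
  have hx1 : X v < 1 := by nlinarith
  refine ⟨by linarith, ?_, ?_⟩
  · have t1 : Y v * (1 - X (κ (.v (.U true r)))) < 0 := mul_neg_of_neg_of_pos h2 (by linarith)
    have t2 : 0 < Y (κ (.v (.U true r))) * (1 - X v) := mul_pos e1 (by linarith)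
    linarith
  · have t1 : Y v * (a + X (κ (.v (.P true (2 * r))))) < 0 :=
      mul_neg_of_neg_of_pos h2 (by linarith)
    have t2 : 0 < Y (κ (.v (.U true r))) * (a + X v) := mul_pos e1 (by linarith)
    linarith

/-- the vertices of `NW` are to the left of all vertical lines -/
theorem lfC_NW (h : GDraw H X Y E F a b κ M) (hr : c < M) (hv : NW X Y a v) :
    LfC X Y b κ c v := by
  obtain ⟨h1, h2, h3⟩ := hv
  have hh := h.vc hr
  have ha := h.hk.a_pos
  have hb := h.hk.b_pos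
  have e1 := hh.XT
  have e2 := hh.YT1
  have e3 := hh.YBb
  have hx1 : Y v < 1 := by nlinarith
  refine ⟨by linarith, ?_, ?_⟩
  · have t1 : X v * (1 - Y (κ (.v (.U false c)))) < 0 := mul_neg_of_neg_of_pos h2 (by linarith)
    have t2 : 0 < X (κ (.v (.U false c))) * (1 - Y v) := mul_pos e1 (by linarith)
    linarith
  · have t1 : X v * (b + Y (κ (.v (.P false (2 * c))))) < 0 :=
      mul_neg_of_neg_of_pos h2 (by linarith)
    have t2 : 0 < X (κ (.v (.U false c))) * (b + Y v) := mul_pos e1 (by linarith)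
    linarith

/-- the position of `u (k + 1) (m + 1)` from the two lower vertices before it -/
theorem dich (h : GDraw H X Y E F a b κ M) (hkm : k + m + 4 ≤ M)
    (w1 : Wk X Y a b κ M k (m + 1) (κ (.v (.lo M k (m + 1)))))
    (w2 : Wk X Y a b κ M (k + 1) m (κ (.v (.lo M (k + 1) m)))) :
    (Y (κ (.v (.u (k + 1) (m + 1)))) = Y (κ (.v (.lo M k (m + 1)))) ∧
      X (κ (.v (.u (k + 1) (m + 1)))) = X (κ (.v (.lo M (k + 1) m))) ∧
      SdC X Y b κ M (k + 1) (κ (.v (.u (k + 1) (m + 1)))) ∧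
      SdR X Y a κ M (m + 1) (κ (.v (.u (k + 1) (m + 1))))) ∨
    (X (κ (.v (.u (k + 1) (m + 1)))) = X (κ (.v (.lo M k (m + 1)))) ∧
      Y (κ (.v (.u (k + 1) (m + 1)))) = Y (κ (.v (.lo M (k + 1) m))) ∧
      SdC X Y b κ M k (κ (.v (.u (k + 1) (m + 1)))) ∧
      SdR X Y a κ M m (κ (.v (.u (k + 1) (m + 1))))) := by
  have hM := h.hg.hM
  have m1 : (M - 1) / 2 < M := by omega
  have hok : (GN.u (k + 1) (m + 1)).ok M := ⟨by omega, by omega, by omega⟩
  have hpi : k % 2 ≠ (k + 1) % 2 := by omega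
  have hpj : (m + 1) % 2 ≠ m % 2 := by omega
  have a1 := h.adj_r (k := k) (m := m + 1) (by omega) (by omega)
  have a2 := h.adj_c (k := k + 1) (m := m) (by omega) (by omega)
  have hne : κ (.v (.lo M k (m + 1))) ≠ κ (.v (.lo M (k + 1) m)) := by
    intro he
    have s1 := w1.sc.1
    have s2 := w2.sc.1
    rw [he, s2] at s1
    omega
  have hK : InK X Y a b (κ (.v (.u (k + 1) (m + 1)))) := by
    refine h.common_K w1.cell w2.cell ?_ ?_ hne a1 a2 (fun σ => h.hg.nX _ σ hok)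
      (fun σ => h.hg.nY _ σ hok)
    · rintro ⟨g1, g2⟩
      have s1 := w1.sr.1.1 (h.lfR_SE m1 g1)
      have s2 := w2.sr.1.1 (h.lfR_SE m1 g2)
      omega
    · rintro ⟨g1, g2⟩
      have s1 := w1.sc.1.1 (h.lfC_NW m1 g1)
      have s2 := w2.sc.1.1 (h.lfC_NW m1 g2)
      omega
  have hf := h.fre_of hok (fun σ j => by simp) (fun σ j => by simp) hK
  exact h.corner w1.fre w2.fre hf a1 a2 w1.sc w1.sr w2.sc w2.sr hpi hpj

/-- two neighbours of `l` on the other side of the middle at the same height are equal -/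
theorem hray (h : GDraw H X Y E F a b κ M) {q' : V} (hl : SdC X Y b κ M i l)
    (hq : SdC X Y b κ M j q) (hq' : SdC X Y b κ M k q') (hij : i % 2 ≠ j % 2)
    (hij' : i % 2 ≠ k % 2) (hY : Y q = Y l) (hY' : Y q' = Y l) (a1 : H.Adj l q)
    (a2 : H.Adj l q') : q = q' := by
  have hM := h.hg.hM
  have m1 : (M - 1) / 2 < M := by omega
  refine axis_x h.hd a1 a2 hY hY' ?_
  by_cases hi : i % 2 = 0
  · left
    have k1 := hl.1.2 hi
    have k2 : ¬ LfC X Y b κ ((M - 1) / 2) q := fun hh => hij (by rw [hi, hq.1.1 hh])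
    have k3 : ¬ LfC X Y b κ ((M - 1) / 2) q' := fun hh => hij' (by rw [hi, hq'.1.1 hh])
    exact ⟨h.C_lt m1 k1 k2 hY.symm, h.C_lt m1 k1 k3 hY'.symm⟩
  · right
    have k1 : ¬ LfC X Y b κ ((M - 1) / 2) l := fun hh => hi (hl.1.1 hh)
    have k2 := hq.1.2 (by omega)
    have k3 := hq'.1.2 (by omega)
    exact ⟨h.C_lt m1 k2 k1 hY, h.C_lt m1 k3 k1 hY'⟩

theorem vray (h : GDraw H X Y E F a b κ M) {q' : V} (hl : SdR X Y a κ M i l)
    (hq : SdR X Y a κ M j q) (hq' : SdR X Y a κ M k q') (hij : i % 2 ≠ j % 2)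
    (hij' : i % 2 ≠ k % 2) (hX : X q = X l) (hX' : X q' = X l) (a1 : H.Adj l q)
    (a2 : H.Adj l q') : q = q' :=
  h.swap.hray (i := i) (j := j) (k := k) hl hq hq' hij hij' hX hX' a1 a2

/-- `l` is not on the ray from `u` which is used by `l₁` -/
theorem hkeep (h : GDraw H X Y E F a b κ M) {u l₁ : V} (hc : c < M) (a1 : H.Adj u l)
    (a2 : H.Adj u l₁) (hY : Y l = Y u) (hY' : Y l₁ = Y u) (hne : l ≠ l₁)
    (h1 : ¬ (LfC X Y b κ c u ↔ LfC X Y b κ c l₁)) : LfC X Y b κ c u ↔ LfC X Y b κ c l := by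
  by_contra hcon
  apply hne
  refine axis_x h.hd a1 a2 hY hY' ?_
  by_cases hu : LfC X Y b κ c u
  · left
    have k1 : ¬ LfC X Y b κ c l := fun hh => hcon ⟨fun _ => hh, fun _ => hu⟩
    have k2 : ¬ LfC X Y b κ c l₁ := fun hh => h1 ⟨fun _ => hh, fun _ => hu⟩
    exact ⟨h.C_lt hc hu k1 hY.symm, h.C_lt hc hu k2 hY'.symm⟩
  · right
    have k1 : LfC X Y b κ c l := by
      by_contra hh
      exact hcon ⟨fun g => absurd g hu, fun g => absurd g hh⟩
    have k2 : LfC X Y b κ c l₁ := by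
      by_contra hh
      exact h1 ⟨fun g => absurd g hu, fun g => absurd g hh⟩
    exact ⟨h.C_lt hc k1 hu hY, h.C_lt hc k2 hu hY'⟩

theorem vkeep (h : GDraw H X Y E F a b κ M) {u l₁ : V} (hc : c < M) (a1 : H.Adj u l)
    (a2 : H.Adj u l₁) (hX : X l = X u) (hX' : X l₁ = X u) (hne : l ≠ l₁)
    (h1 : ¬ (LfR X Y a κ c u ↔ LfR X Y a κ c l₁)) : LfR X Y a κ c u ↔ LfR X Y a κ c l :=
  h.swap.hkeep (c := c) hc a1 a2 hX hX' hne h1

/-- `u` and `q` would be on the same ray from `l` -/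
theorem hexcl (h : GDraw H X Y E F a b κ M) {u l₁ : V} (hu : SdC X Y b κ M i u)
    (hl : SdC X Y b κ M i l) (hl₁ : SdC X Y b κ M j l₁) (hq : SdC X Y b κ M k q)
    (hij : i % 2 ≠ j % 2) (hik : i % 2 ≠ k % 2) (a1 : H.Adj u l) (a2 : H.Adj u l₁)
    (a3 : H.Adj l q) (hY : Y l = Y u) (hY' : Y l₁ = Y u) (hYq : Y q = Y l) (hne : l ≠ l₁)
    (hne' : u ≠ q) : False := by
  have hM := h.hg.hM
  have m1 : (M - 1) / 2 < M := by omega
  have heq : X l ≠ X u := by
    intro hX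
    exact a1.ne (pt_eq_D h.hd a2 hne hX hY).symm
  by_cases hi : i % 2 = 0
  · have ku := hu.1.2 hi
    have kl := hl.1.2 hi
    have kl₁ : ¬ LfC X Y b κ ((M - 1) / 2) l₁ := fun hh => hij (by rw [hi, hl₁.1.1 hh])
    have kq : ¬ LfC X Y b κ ((M - 1) / 2) q := fun hh => hik (by rw [hi, hq.1.1 hh])
    have e1 := h.C_lt m1 ku kl₁ hY'.symm
    have e2 := h.C_lt m1 kl kq hYq.symm
    rcases lt_or_gt_of_ne heq with g | g
    · exact hne' (axis_x h.hd a1.symm a3 hY.symm hYq (Or.inl ⟨g, e2⟩))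
    · exact hne (axis_x h.hd a1 a2 hY hY' (Or.inl ⟨g, e1⟩))
  · have ku : ¬ LfC X Y b κ ((M - 1) / 2) u := fun hh => hi (hu.1.1 hh)
    have kl : ¬ LfC X Y b κ ((M - 1) / 2) l := fun hh => hi (hl.1.1 hh)
    have kl₁ := hl₁.1.2 (by omega)
    have kq := hq.1.2 (by omega)
    have e1 := h.C_lt m1 kl₁ ku hY'
    have e2 := h.C_lt m1 kq kl hYq
    rcases lt_or_gt_of_ne heq with g | g
    · exact hne (axis_x h.hd a1 a2 hY hY' (Or.inr ⟨g, e1⟩))
    · exact hne' (axis_x h.hd a1.symm a3 hY.symm hYq (Or.inr ⟨g, e2⟩))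

theorem vexcl (h : GDraw H X Y E F a b κ M) {u l₁ : V} (hu : SdR X Y a κ M i u)
    (hl : SdR X Y a κ M i l) (hl₁ : SdR X Y a κ M j l₁) (hq : SdR X Y a κ M k q)
    (hij : i % 2 ≠ j % 2) (hik : i % 2 ≠ k % 2) (a1 : H.Adj u l) (a2 : H.Adj u l₁)
    (a3 : H.Adj l q) (hX : X l = X u) (hX' : X l₁ = X u) (hXq : X q = X l) (hne : l ≠ l₁)
    (hne' : u ≠ q) : False :=
  h.swap.hexcl (i := i) (j := j) (k := k) hu hl hl₁ hq hij hik a1 a2 a3 hX hX' hXq hne hne'

/-- the boundary -/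
theorem inR_lo_bd (h : GDraw H X Y E F a b κ M) (hkm : k = 0 ∨ m = 0) (hkm' : k + m + 3 ≤ M) :
    InR X Y κ (cc M k) (cc M m) (X (κ (.v (.lo M k m)))) (Y (κ (.v (.lo M k m)))) := by
  have hM := h.hg.hM
  by_cases hm : m = 0
  · subst hm
    have hlo : GN.lo M k 0 = .D (cc M k) 0 := by
      unfold GN.lo
      rw [if_pos rfl]
    rw [hlo, cc_zero]
    have hck := cc_lt (M := M) (k := k) (by omega)
    rw [InR, h.X_D0 (by omega), h.pos_row (by omega)]
    exact ⟨h.X_lt (by omega) (by omega), h.X_lt (by omega) (by omega),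
      h.Y_lt (by omega) (by omega), h.Y_lt (by omega) (by omega)⟩
  · have hk : k = 0 := by omega
    subst hk
    have hlo : GN.lo M 0 m = .D 0 (cc M m) := by
      unfold GN.lo
      rw [if_neg hm, if_pos rfl]
    rw [hlo, cc_zero]
    have hck := cc_lt (M := M) (k := m) (by omega)
    rw [InR, h.Y_D0 (by omega), h.pos_col (by omega)]
    exact ⟨h.X_lt (by omega) (by omega), h.X_lt (by omega) (by omega),
      h.Y_lt (by omega) (by omega), h.Y_lt (by omega) (by omega)⟩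

theorem u_inj (h : GDraw H X Y E F a b κ M) {k' m' : ℕ} (h1 : (GN.u k m).ok M)
    (h2 : (GN.u k' m').ok M) (he : κ (.v (.u k m)) = κ (.v (.u k' m'))) : k = k' ∧ m = m' := by
  have := h.hg.inj _ _ h1 h2 he
  injection this with e1 e2
  exact ⟨e1, e2⟩

/-- the vertices `u` are not in the wrong place -/
theorem no_wrong (h : GDraw H X Y E F a b κ M) {s : ℕ} (hs : s + 3 ≤ M)
    (hP : PlL X Y κ M s) : ∀ k m, k + m + 1 = s →
      ¬ (X (κ (.v (.u (k + 1) (m + 1)))) = X (κ (.v (.lo M k (m + 1)))) ∧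
        SdR X Y a κ M m (κ (.v (.u (k + 1) (m + 1))))) := by
  have hM := h.hg.hM
  intro k
  induction k with
  | zero =>
    rintro m hkm ⟨g1, -⟩
    have hlo : GN.lo M 0 (m + 1) = .D 0 (cc M (m + 1)) := by
      unfold GN.lo
      rw [if_neg (by omega), if_pos rfl]
    have a1 := h.adj_r (k := 0) (m := m + 1) (by omega) (by omega)
    rw [hlo] at g1 a1
    set r := cc M (m + 1) with hr
    have r1 : 1 ≤ r := cc_pos (by omega) (by omega)
    have r2 : r + 1 < M := cc_lt (by omega)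
    have hok : (GN.u (0 + 1) (m + 1)).ok M := ⟨by omega, by omega, by omega⟩
    have x0 := h.pos_col (r := r) (by omega)
    have x1 := h.pos_col (r := r + 1) r2
    have x2 := h.pos_col (r := r - 1) (by omega)
    have y0 := h.Y_D0 (r := r) (by omega)
    have y1 := h.Y_D0 (r := r + 1) r2
    have y2 := h.Y_D0 (r := r - 1) (by omega)
    have z1 := h.Y_lt (i := 2 * r + 1) (j := 2 * (r + 1) + 1) (by omega) (by omega)
    have z2 := h.Y_lt (i := 2 * (r - 1) + 1) (j := 2 * r + 1) (by omega) (by omega)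
    have b1 : H.Adj (κ (.v (.D 0 r))) (κ (.v (.D 0 (r + 1)))) := h.hg.adj (.dd true r) r2
    have b2 : H.Adj (κ (.v (.D 0 r))) (κ (.v (.D 0 (r - 1)))) := by
      have := h.hg.adj (.dd true (r - 1)) (show r - 1 + 1 < M by omega)
      simp only [GE.ends, GN.D', cond_true] at this
      rw [Nat.sub_add_cancel r1] at this
      exact this.symm
    have n1 : κ (.v (.u (0 + 1) (m + 1))) ≠ κ (.v (.D 0 (r + 1))) := by
      intro he
      have := h.hg.inj _ _ hok (show (GN.D 0 (r + 1)).ok M from ⟨by omega, r2, Or.inl rfl⟩) he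
      cases this
    have n2 : κ (.v (.u (0 + 1) (m + 1))) ≠ κ (.v (.D 0 (r - 1))) := by
      intro he
      have := h.hg.inj _ _ hok (show (GN.D 0 (r - 1)).ok M from ⟨by omega, by omega, Or.inl rfl⟩)
        he
      cases this
    rcases lt_trichotomy (Y (κ (.v (.u (0 + 1) (m + 1))))) (Y (κ (.v (.D 0 r)))) with e | e | e
    · exact n2 (axis_y h.hd a1.symm b2 g1 (by rw [x2, x0]) (Or.inr ⟨e, by rw [y2, y0]; exact z2⟩))
    · exact a1.ne (pt_eq_D h.hd b1 n1 g1 e)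
    · exact n1 (axis_y h.hd a1.symm b1 g1 (by rw [x1, x0]) (Or.inl ⟨e, by rw [y1, y0]; exact z1⟩))
  | succ k ih =>
    rintro m hkm ⟨g1, g2⟩
    have w0 := h.wk_lo (k := k + 1) (m := m + 1) (Or.inl (by omega)) (by omega)
      (hP (k + 1) (m + 1) (Or.inl (by omega)) (by omega))
    have w1 := h.wk_lo (k := k) (m := m + 1 + 1) (Or.inr (by omega)) (by omega)
      (hP k (m + 1 + 1) (Or.inr (by omega)) (by omega))
    have ok1 : (GN.u (k + 1 + 1) (m + 1)).ok M := ⟨by omega, by omega, by omega⟩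
    have ok2 : (GN.u (k + 1) (m + 1 + 1)).ok M := ⟨by omega, by omega, by omega⟩
    rcases h.dich (k := k) (m := m + 1) (by omega) w1 w0 with ⟨-, e2, -, e4⟩ | ⟨e1, -, -, e4⟩
    · have := h.vray (i := m + 1) (j := m) (k := m + 1 + 1) w0.sr g2 e4 (by omega) (by omega) g1 e2
        (h.adj_r (k := k + 1) (m := m + 1) (by omega) (by omega)).symm
        (h.adj_c (k := k + 1) (m := m + 1) (by omega) (by omega)).symm
      have := (h.u_inj ok1 ok2 this).1
      omega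
    · exact ih (m + 1) (by omega) ⟨e1, e4⟩

/-- the place of the vertices `u` -/
theorem u_pl (h : GDraw H X Y E F a b κ M) {s : ℕ} (hs : s + 3 ≤ M)
    (hP : PlL X Y κ M s) (hkm : k + m + 1 = s) :
    Y (κ (.v (.u (k + 1) (m + 1)))) = Y (κ (.v (.lo M k (m + 1)))) ∧
      X (κ (.v (.u (k + 1) (m + 1)))) = X (κ (.v (.lo M (k + 1) m))) ∧
      SdC X Y b κ M (k + 1) (κ (.v (.u (k + 1) (m + 1)))) ∧
      SdR X Y a κ M (m + 1) (κ (.v (.u (k + 1) (m + 1)))) := by
  have w0 := h.wk_lo (k := k + 1) (m := m) (Or.inl (by omega)) (by omega)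
    (hP (k + 1) m (Or.inl (by omega)) (by omega))
  have w1 := h.wk_lo (k := k) (m := m + 1) (Or.inr (by omega)) (by omega)
    (hP k (m + 1) (Or.inr (by omega)) (by omega))
  rcases h.dich (k := k) (m := m) (by omega) w1 w0 with e | ⟨e1, -, -, e4⟩
  · exact e
  · exact absurd ⟨e1, e4⟩ (h.no_wrong hs hP k m hkm)

theorem u_inR (h : GDraw H X Y E F a b κ M) {s : ℕ} (hs : s + 3 ≤ M)
    (hP : PlL X Y κ M s) (hkm : k + m + 1 = s) :
    InR X Y κ (cc M (k + 1)) (cc M (m + 1)) (X (κ (.v (.u (k + 1) (m + 1)))))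
      (Y (κ (.v (.u (k + 1) (m + 1))))) := by
  obtain ⟨e1, e2, -, -⟩ := h.u_pl hs hP hkm
  obtain ⟨a1, a2, -, -⟩ := hP (k + 1) m (Or.inl (by omega)) (by omega)
  obtain ⟨-, -, a3, a4⟩ := hP k (m + 1) (Or.inr (by omega)) (by omega)
  rw [e1, e2]
  exact ⟨a1, a2, a3, a4⟩

/-- an edge from a vertex of a rectangle -/
theorem stepR (h : GDraw H X Y E F a b κ M) (hc : c + 1 < M) (hr : r + 1 < M)
    (hin : InR X Y κ c r (X p) (Y p)) (hp : H.Adj p p') :
    InR X Y κ c r (X p') (Y p') ∨ X p' = X p ∨ Y p' = Y p := by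
  obtain ⟨h1, h2, h3, h4⟩ := hin
  exact (h.rect hc hr).through h.hd hp (s := 0) le_rfl zero_le_one (by linarith) (by linarith)
    (by linarith) (by linarith)

theorem wk_of_cell (h : GDraw H X Y E F a b κ M)
    (hv : NE X Y v ∨ SE X Y b v ∨ NW X Y a v) : InK X Y a b v := by
  rcases hv with g | g | g
  · exact h.inK_NE g
  · exact h.inK_SE g
  · exact h.inK_NW g

/-- the lower vertices of the next level are in the correct quadrants -/
theorem wk_next (h : GDraw H X Y E F a b κ M) {s : ℕ} (hs : s + 4 ≤ M)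
    (hP : PlL X Y κ M s) (hkm : 1 ≤ k ∨ 1 ≤ m) (hs' : k + m = s + 1) :
    Wk X Y a b κ M k m (κ (.v (.lo M k m))) := by
  by_cases hbd : k = 0 ∨ m = 0
  · exact h.wk_lo hkm (by omega) (h.inR_lo_bd hbd (by omega))
  obtain ⟨k', rfl⟩ : ∃ k', k = k' + 1 := ⟨k - 1, by omega⟩
  obtain ⟨m', rfl⟩ : ∃ m', m = m' + 1 := ⟨m - 1, by omega⟩
  have hM := h.hg.hM
  have m1 : (M - 1) / 2 < M := by omega
  have m2 : (M - 1) / 2 + 1 < M := by omega
  have hin := h.u_inR (k := k') (m := m') (s := s) (by omega) hP (by omega)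
  obtain ⟨p1, p2, p3, p4⟩ := h.u_pl (k := k') (m := m') (s := s) (by omega) hP (by omega)
  have a0 := h.adj_ul (k := k' + 1) (m := m' + 1) (by omega) (by omega) (by omega)
  have hlok : (GN.lo M (k' + 1) (m' + 1)).ok M := GN.lo_ok (Or.inl (by omega)) (by omega)
  have huok : (GN.u (k' + 1) (m' + 1)).ok M := ⟨by omega, by omega, by omega⟩
  have hNE := h.ne_of_inR (k := k' + 1) (m := m' + 1) (by omega) (by omega) hin
  have fu : Fre X Y a b κ M (κ (.v (.u (k' + 1) (m' + 1)))) :=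
    h.fre_of huok (fun σ j => by simp) (fun σ j => by simp) (h.inK_NE hNE)
  rcases h.stepR (cc_lt (by omega)) (cc_lt (by omega)) hin a0 with g | g | g
  · exact h.wk_lo (Or.inl (by omega)) (by omega) g
  · -- straight above or below `u`
    have a2 := h.adj_c (k := k' + 1) (m := m') (by omega) (by omega)
    have w := h.wk_lo (k := k' + 1) (m := m') (Or.inl (by omega)) (by omega)
      (hP (k' + 1) m' (Or.inl (by omega)) (by omega))
    have hne : κ (.v (.lo M (k' + 1) (m' + 1))) ≠ κ (.v (.lo M (k' + 1) m')) := by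
      intro he
      have := h.hg.inj _ _ hlok (GN.lo_ok (Or.inl (by omega)) (by omega)) he
      rw [lo_eq (by omega) (by omega)] at this
      exact l_ne_lo (by omega) this
    have hcell : NE X Y (κ (.v (.lo M (k' + 1) (m' + 1)))) ∨
        SE X Y b (κ (.v (.lo M (k' + 1) (m' + 1)))) := by
      obtain ⟨n1, n2, n3⟩ := hNE
      exact vert_end h.hd h.hk a0 g (s := 0) le_rfl zero_le_one n1 (by linarith) (by linarith)
    have hcell' : NE X Y (κ (.v (.lo M (k' + 1) (m' + 1)))) ∨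
        SE X Y b (κ (.v (.lo M (k' + 1) (m' + 1)))) ∨
        NW X Y a (κ (.v (.lo M (k' + 1) (m' + 1)))) := by
      rcases hcell with hc | hc
      · exact Or.inl hc
      · exact Or.inr (Or.inl hc)
    have fl := h.fre_of hlok (fun σ j => lo_neU _ _ _ σ j) (fun σ j => lo_neP _ _ _ σ j)
      (h.wk_of_cell hcell')
    refine ⟨fl, hcell', ⟨?_, ?_⟩, ⟨?_, ?_⟩⟩
    · rw [← h.ver_C m1 a0 fu fl g, p3.1]
    · rw [← h.ver_C m2 a0 fu fl g, p3.2]
    · rw [← h.vkeep m1 a0 a2 g p2.symm hne (by rw [p4.1, w.sr.1]; omega), p4.1]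
    · rw [← h.vkeep m2 a0 a2 g p2.symm hne (by rw [p4.2, w.sr.2]; omega), p4.2]
  · -- straight to the left or to the right of `u`
    have a2 := h.adj_r (k := k') (m := m' + 1) (by omega) (by omega)
    have w := h.wk_lo (k := k') (m := m' + 1) (Or.inr (by omega)) (by omega)
      (hP k' (m' + 1) (Or.inr (by omega)) (by omega))
    have hne : κ (.v (.lo M (k' + 1) (m' + 1))) ≠ κ (.v (.lo M k' (m' + 1))) := by
      intro he
      have := h.hg.inj _ _ hlok (GN.lo_ok (Or.inr (by omega)) (by omega)) he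
      rw [lo_eq (by omega) (by omega)] at this
      exact l_ne_lo (by omega) this
    have hcell : NE X Y (κ (.v (.lo M (k' + 1) (m' + 1)))) ∨
        NW X Y a (κ (.v (.lo M (k' + 1) (m' + 1)))) := by
      obtain ⟨n1, n2, n3⟩ := hNE
      exact horz_end h.hd h.hk a0 g (s := 0) le_rfl zero_le_one n2 (by linarith) (by linarith)
    have hcell' : NE X Y (κ (.v (.lo M (k' + 1) (m' + 1)))) ∨
        SE X Y b (κ (.v (.lo M (k' + 1) (m' + 1)))) ∨
        NW X Y a (κ (.v (.lo M (k' + 1) (m' + 1)))) := by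
      rcases hcell with hc | hc
      · exact Or.inl hc
      · exact Or.inr (Or.inr hc)
    have fl := h.fre_of hlok (fun σ j => lo_neU _ _ _ σ j) (fun σ j => lo_neP _ _ _ σ j)
      (h.wk_of_cell hcell')
    refine ⟨fl, hcell', ⟨?_, ?_⟩, ⟨?_, ?_⟩⟩
    · rw [← h.hkeep m1 a0 a2 g p1.symm hne (by rw [p3.1, w.sc.1]; omega), p3.1]
    · rw [← h.hkeep m2 a0 a2 g p1.symm hne (by rw [p3.2, w.sc.2]; omega), p3.2]
    · rw [← h.hor_R m1 a0 fu fl g, p4.1]
    · rw [← h.hor_R m2 a0 fu fl g, p4.2]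

/-- the lower vertices are in their rectangles -/
theorem pl_all (h : GDraw H X Y E F a b κ M) : ∀ s, s + 3 ≤ M → PlL X Y κ M s := by
  have hM := h.hg.hM
  intro s
  induction s with
  | zero =>
    intro _ k m h1 h2
    omega
  | succ s ih =>
    intro hs k m h1 h2
    by_cases hbd : k = 0 ∨ m = 0
    · exact h.inR_lo_bd hbd (by omega)
    obtain ⟨k', rfl⟩ : ∃ k', k = k' + 1 := ⟨k - 1, by omega⟩
    obtain ⟨m', rfl⟩ : ∃ m', m = m' + 1 := ⟨m - 1, by omega⟩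
    have hP := ih (by omega)
    have hW := fun (k m : ℕ) (h1 : 1 ≤ k ∨ 1 ≤ m) (h2 : k + m = s + 1) =>
      h.wk_next (s := s) (by omega) hP h1 h2
    have hin := h.u_inR (k := k') (m := m') (s := s) (by omega) hP (by omega)
    obtain ⟨p1, p2, p3, p4⟩ := h.u_pl (k := k') (m := m') (s := s) (by omega) hP (by omega)
    have a0 := h.adj_ul (k := k' + 1) (m := m' + 1) (by omega) (by omega) (by omega)
    have hlok : (GN.lo M (k' + 1) (m' + 1)).ok M := GN.lo_ok (Or.inl (by omega)) (by omega)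
    have huok : (GN.u (k' + 1) (m' + 1)).ok M := ⟨by omega, by omega, by omega⟩
    have ok1 : (GN.u (k' + 1 + 1) (m' + 1)).ok M := ⟨by omega, by omega, by omega⟩
    have ok2 : (GN.u (k' + 1) (m' + 1 + 1)).ok M := ⟨by omega, by omega, by omega⟩
    have w0 := hW (k' + 1) (m' + 1) (Or.inl (by omega)) (by omega)
    have w1 := hW (k' + 1 + 1) m' (Or.inl (by omega)) (by omega)
    have w2 := hW k' (m' + 1 + 1) (Or.inr (by omega)) (by omega)
    have b1 := h.adj_r (k := k' + 1) (m := m' + 1) (by omega) (by omega)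
    have b2 := h.adj_c (k := k' + 1) (m := m' + 1) (by omega) (by omega)
    have d1 := h.dich (k := k' + 1) (m := m') (by omega) w0 w1
    have d2 := h.dich (k := k') (m := m' + 1) (by omega) w2 w0
    have nu1 : κ (.v (.u (k' + 1) (m' + 1))) ≠ κ (.v (.u (k' + 1 + 1) (m' + 1))) := by
      intro he
      have := (h.u_inj huok ok1 he).1
      omega
    have nu2 : κ (.v (.u (k' + 1) (m' + 1))) ≠ κ (.v (.u (k' + 1) (m' + 1 + 1))) := by
      intro he
      have := (h.u_inj huok ok2 he).2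
      omega
    have n12 : κ (.v (.u (k' + 1 + 1) (m' + 1))) ≠ κ (.v (.u (k' + 1) (m' + 1 + 1))) := by
      intro he
      have := (h.u_inj ok1 ok2 he).1
      omega
    rcases h.stepR (cc_lt (by omega)) (cc_lt (by omega)) hin a0 with g | g | g
    · exact g
    · exfalso
      have a2 := h.adj_c (k := k' + 1) (m := m') (by omega) (by omega)
      have w := h.wk_lo (k := k' + 1) (m := m') (Or.inl (by omega)) (by omega)
        (hP (k' + 1) m' (Or.inl (by omega)) (by omega))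
      have hne : κ (.v (.lo M (k' + 1) (m' + 1))) ≠ κ (.v (.lo M (k' + 1) m')) := by
        intro he
        have := h.hg.inj _ _ hlok (GN.lo_ok (Or.inl (by omega)) (by omega)) he
        rw [lo_eq (by omega) (by omega)] at this
        exact l_ne_lo (by omega) this
      rcases d2 with ⟨-, e2, -, e4⟩ | ⟨-, e2, e3, -⟩
      · exact h.vexcl p4 w0.sr w.sr e4 (by omega) (by omega) a0 a2 b2.symm g p2.symm e2 hne nu2
      · rcases d1 with ⟨f1, -, f3, -⟩ | ⟨f1, -, -, f4⟩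
        · exact n12 (h.hray w0.sc f3 e3 (by omega) (by omega) f1 e2 b1.symm b2.symm)
        · exact h.vexcl p4 w0.sr w.sr f4 (by omega) (by omega) a0 a2 b1.symm g p2.symm f1 hne nu1
    · exfalso
      have a2 := h.adj_r (k := k') (m := m' + 1) (by omega) (by omega)
      have w := h.wk_lo (k := k') (m := m' + 1) (Or.inr (by omega)) (by omega)
        (hP k' (m' + 1) (Or.inr (by omega)) (by omega))
      have hne : κ (.v (.lo M (k' + 1) (m' + 1))) ≠ κ (.v (.lo M k' (m' + 1))) := by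
        intro he
        have := h.hg.inj _ _ hlok (GN.lo_ok (Or.inr (by omega)) (by omega)) he
        rw [lo_eq (by omega) (by omega)] at this
        exact l_ne_lo (by omega) this
      rcases d1 with ⟨f1, -, f3, -⟩ | ⟨f1, -, -, f4⟩
      · exact h.hexcl p3 w0.sc w.sc f3 (by omega) (by omega) a0 a2 b1.symm g p1.symm f1 hne nu1
      · rcases d2 with ⟨-, e2, -, e4⟩ | ⟨-, e2, e3, -⟩
        · exact n12 (h.vray w0.sr f4 e4 (by omega) (by omega) f1 e2 b1.symm b2.symm)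
        · exact h.hexcl p3 w0.sc w.sc e3 (by omega) (by omega) a0 a2 b2.symm g p1.symm e2 hne nu2

theorem inR_u (h : GDraw H X Y E F a b κ M) (hk : 1 ≤ k) (hm : 1 ≤ m) (hkm : k + m + 2 ≤ M) :
    InR X Y κ (cc M k) (cc M m) (X (κ (.v (.u k m)))) (Y (κ (.v (.u k m)))) := by
  obtain ⟨k', rfl⟩ : ∃ k', k = k' + 1 := ⟨k - 1, by omega⟩
  obtain ⟨m', rfl⟩ : ∃ m', m = m' + 1 := ⟨m - 1, by omega⟩
  exact h.u_inR (s := k' + m' + 1) (by omega) (h.pl_all _ (by omega)) rfl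

theorem inR_lo (h : GDraw H X Y E F a b κ M) (hkm : 1 ≤ k ∨ 1 ≤ m) (hkm' : k + m + 3 ≤ M) :
    InR X Y κ (cc M k) (cc M m) (X (κ (.v (.lo M k m)))) (Y (κ (.v (.lo M k m)))) :=
  h.pl_all (k + m) hkm' k m hkm rfl

/-- the link in the column `k` is vertical -/
theorem X_u (h : GDraw H X Y E F a b κ M) (hk : 1 ≤ k) (hkm : k + m + 3 ≤ M) :
    X (κ (.v (.u k (m + 1)))) = X (κ (.v (.lo M k m))) := by
  obtain ⟨k', rfl⟩ : ∃ k', k = k' + 1 := ⟨k - 1, by omega⟩
  exact (h.u_pl (k := k') (m := m) (s := k' + m + 1) (by omega) (h.pl_all _ (by omega)) rfl).2.1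

/-- the link in the row `m` is horizontal -/
theorem Y_u (h : GDraw H X Y E F a b κ M) (hm : 1 ≤ m) (hkm : k + m + 3 ≤ M) :
    Y (κ (.v (.u (k + 1) m))) = Y (κ (.v (.lo M k m))) := by
  obtain ⟨m', rfl⟩ : ∃ m', m = m' + 1 := ⟨m - 1, by omega⟩
  exact (h.u_pl (k := k) (m := m') (s := k + m' + 1) (by omega) (h.pl_all _ (by omega)) rfl).1

end GDraw

end Pool.Agent.Helper74.DG2
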