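import Pool.Agent.Helper74.DG2.Base
import Pool.Agent.Helper82.DG.Lay

/-!
# Dark islands: the layout of a grid
-/

set_option autoImplicit false

namespace Pool.Agent.Helper74.DG2

open Pool.Agent.Helper18.RAC Complex
open Pool.Agent.Helper82.DG (NE SE NW SW XCross)

/-- offset of the links number `j`: `0 = ph M 1 < ph M 2 < ... < 1 / 2` -/
noncomputable def ph (M j : ℕ) : ℝ := ((j : ℝ) - 1) / (2 * M)

/-- positions of the vertices of the grid; the crossing point of the diagonals is the origin -/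
noncomputable def lay (M : ℕ) : GN → ℂ
  | .P false j => ⟨j + 1, -1⟩
  | .P true j => ⟨-1, j + 1⟩
  | .U false c => ⟨2 * c + 1, 2 * M + 2⟩
  | .U true c => ⟨2 * M + 2, 2 * c + 1⟩
  | .C false j ε => ⟨j + 3 / 2, cond ε (-3 / 4) (-1 / 2)⟩
  | .C true j ε => ⟨cond ε (-3 / 4) (-1 / 2), j + 3 / 2⟩
  | .Q false => ⟨2 * M, 2 * M⟩
  | .Q true => ⟨2 * M + 1 / 4, 2 * M + 1 / 4⟩
  | .D c r => ⟨2 * c + 2, 2 * r + 2⟩
  | .u k m => ⟨2 * (cc M k : ℝ) + 2 + ph M m, 2 * (cc M m : ℝ) + 2 + ph M k⟩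
  | .l k m => ⟨2 * (cc M k : ℝ) + 2 + ph M (m + 1), 2 * (cc M m : ℝ) + 2 + ph M (k + 1)⟩

/-- positions of the corners and of the vertices of the grid -/
noncomputable def layX (M : ℕ) (n s e w : ℝ) : GX → ℂ
  | .X false => ⟨0, n⟩
  | .X true => ⟨e, 0⟩
  | .Y false => ⟨0, -s⟩
  | .Y true => ⟨-w, 0⟩
  | .v x => lay M x

def GX.ok (M : ℕ) : GX → Prop
  | .v x => x.ok M
  | _ => True

/-- codes of the two diagonals and of the edges of the grid -/
inductive GF
  | ns
  | ew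
  | g (c : GE)

def GF.valid (M : ℕ) : GF → Prop
  | .g c => c.valid M
  | _ => True

def GF.ends (M : ℕ) : GF → GX × GX
  | .ns => (.X false, .Y false)
  | .ew => (.X true, .Y true)
  | .g c => c.ends M

end Pool.Agent.Helper74.DG2
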